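import Mathlib
import Pool.Agent.TH130.FP.FinalD

/-!
# The Fröberg–Iarrobino formula to leading order

Fix `D` and `ε > 0`. For all large `n` and for **all** `r` and `d ≥ 1`, the Hilbert function of the
quotient of the polynomial ring in `n` variables over `ℂ` by the `d`-th powers of `r` generic linear
forms agrees in every degree `k ≤ D` with the truncated series of Fröberg up to an error of at most
`ε * n ^ k`; the error is `O (n ^ (k - 1))` if the coefficients of the series up to degree `k` are
at least `ε * n ^ j`, and there is no error as soon as some coefficient up to degree `k` is at most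
`- ε * n ^ j`.

The variables are divided into blocks of a large fixed size, and the linear forms are specialised to
sums of linear forms in `d` different blocks. Modulo the monomials which contain two variables of
one block the `d`-th powers are products of linear forms in different blocks, and for generic such
products the optimal bound of Shearer's type is attained in the multilinear part.
-/

set_option autoImplicit false

namespace Pool.Agent.Results.MP_9e2f2c_ag.LeadingOrder

open MvPolynomial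

/-- The Hilbert function of the quotient of `ℂ[x_1, …, x_n]` by the ideal generated by the `d`-th
powers of the linear forms `∑ i, a (s, i) * x_i`, in degree `k`. -/
noncomputable def hilb {n r : ℕ} (d : ℕ) (a : Fin r × Fin n → ℂ) (k : ℕ) : ℤ :=
  (Module.finrank ℂ (MvPolynomial.homogeneousSubmodule (Fin n) ℂ k) : ℤ) -
    (Module.finrank ℂ
      ↥(Submodule.restrictScalars ℂ
          (Ideal.span (Set.range fun s : Fin r =>
            (∑ i : Fin n, C (a (s, i)) * X i : MvPolynomial (Fin n) ℂ) ^ d)) ⊓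
        MvPolynomial.homogeneousSubmodule (Fin n) ℂ k) : ℤ)

/-- The coefficient of `t ^ k` in `(1 - t) ^ (-n) * (1 - t ^ d) ^ r`. -/
noncomputable def co (n r d k : ℕ) : ℤ :=
  PowerSeries.coeff k
    ((PowerSeries.mk fun _ => (1 : ℤ)) ^ n * (1 - PowerSeries.X ^ d) ^ r)

open Classical in
/-- The coefficient of `t ^ k` in the series `F_{n,r,d}`, that is, of `(1 - t ^ d) ^ r / (1 - t) ^ n`
truncated at its first coefficient that is not positive. -/
noncomputable def fro (n r d k : ℕ) : ℤ :=
  if ∀ j ≤ k, 0 < co n r d j then co n r d k else 0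

/-- The formula of Fröberg and Iarrobino to leading order. -/
theorem result (D : ℕ) (ε : ℝ) (hε : 0 < ε) :
    ∃ (C : ℝ) (n₀ : ℕ), ∀ n r d : ℕ, n₀ ≤ n → 1 ≤ d →
      ∃ P : MvPolynomial (Fin r × Fin n) ℂ, P ≠ 0 ∧
        ∀ a : Fin r × Fin n → ℂ, MvPolynomial.eval a P ≠ 0 →
          ∀ k : ℕ, k ≤ D →
            |((hilb d a k - fro n r d k : ℤ) : ℝ)| ≤ ε * (n : ℝ) ^ k ∧
            ((∀ j ≤ k, ε * (n : ℝ) ^ j ≤ (co n r d j : ℝ)) →
              (n : ℝ) * |((hilb d a k - fro n r d k : ℤ) : ℝ)| ≤ C * (n : ℝ) ^ k) ∧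
            ((∃ j ≤ k, (co n r d j : ℝ) ≤ -(ε * (n : ℝ) ^ j)) → hilb d a k = 0) := by
  classical
  obtain ⟨e, he0, heε⟩ := exists_rat_btwn hε
  have he : 0 < e := by exact_mod_cast he0
  obtain ⟨C, n0, hC0, hn0, H⟩ := Pool.Agent.TH130.FP.main_qdP D e he
  refine ⟨(C : ℝ), n0, ?_⟩
  intro n r d hn hd
  obtain ⟨Φ, hΦ0, hΦ⟩ := H ℂ n hn r (fun _ => d) (fun _ => hd)
  refine ⟨Φ, hΦ0, ?_⟩
  intro a haΦ k hk
  have h1 := hΦ _ haΦ k hk
  have hn1 : 1 ≤ n := hn0.trans hn
  have hnR : (0 : ℝ) < n := by exact_mod_cast hn1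
  have hE : ∀ j, H350MG.E (H350MG.gj (Fin n)) (List.ofFn fun _ : Fin r => d) j = co n r d j := by
    intro j
    rw [H350MG.E_ofFn_series n hn1]
    unfold co
    rw [Finset.prod_const, Finset.card_univ, Fintype.card_fin]
  have hh : ∀ j, H350MG.qd (H350MG.fList (fun _ : Fin r => d)
      (Pool.Agent.TH130.FP.pf (fun _ : Fin r => d) a)) j = hilb d a j := by
    intro j
    unfold hilb H350MG.qd
    have h2 := H350MG.span_inf_eq (Pool.Agent.TH130.FP.pf_hom (fun _ : Fin r => d) a) j
    have h3 : (fun s : Fin r => (∑ i : Fin n, MvPolynomial.C (a (s, i)) * X i :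
        MvPolynomial (Fin n) ℂ) ^ d) = Pool.Agent.TH130.FP.pf (fun _ : Fin r => d) a := by
      funext s
      unfold Pool.Agent.TH130.FP.pf H350MG.lin
      simp only [smul_eq_C_mul]
    rw [h3, h2]
    congr 1
    exact (H350MG.finrank_Rj' j).symm
  simp only [hE, hh] at h1
  obtain ⟨h3, h4, h5, h6⟩ := h1
  have hle : ∀ j, (e : ℝ) * (n : ℝ) ^ j ≤ ε * (n : ℝ) ^ j := fun j =>
    mul_le_mul_of_nonneg_right heε.le (by positivity)
  refine ⟨?_, ?_, ?_⟩
  · refine le_trans ?_ (hle k)
    by_cases hp : ∀ j ≤ k, 0 < co n r d j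
    · have h7 := h3 hp
      unfold fro
      rw [if_pos hp]
      have h8 : (((|(hilb d a k : ℚ) - (co n r d k : ℚ)| : ℚ)) : ℝ) ≤
          ((e * (n : ℚ) ^ k : ℚ) : ℝ) := by
        exact_mod_cast h7
      push_cast at h8 ⊢
      exact h8
    · have h7 := h4 (by
        push Not at hp
        exact hp)
      unfold fro
      rw [if_neg hp, sub_zero]
      have h8 : (((|(hilb d a k : ℚ)| : ℚ)) : ℝ) ≤ ((e * (n : ℚ) ^ k : ℚ) : ℝ) := by
        exact_mod_cast h7
      push_cast at h8 ⊢
      exact h8
  · intro hreg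
    have hreg' : ∀ j ≤ k, e * (n : ℚ) ^ j ≤ (co n r d j : ℚ) := by
      intro j hj
      have h7 := (hle j).trans (hreg j hj)
      exact_mod_cast h7
    have hp : ∀ j ≤ k, 0 < co n r d j := by
      intro j hj
      have h7 := hreg j hj
      have h8 : 0 < ε * (n : ℝ) ^ j := by positivity
      have h9 : (0 : ℝ) < (co n r d j : ℝ) := by linarith
      exact_mod_cast h9
    unfold fro
    rw [if_pos hp]
    have h7 := h5 hreg'
    have h8 : (((n : ℚ) * |(hilb d a k : ℚ) - (co n r d k : ℚ)| : ℚ) : ℝ) ≤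
        ((C * (n : ℚ) ^ k : ℚ) : ℝ) := by exact_mod_cast h7
    push_cast at h8 ⊢
    exact h8
  · rintro ⟨j, hj, hEj⟩
    refine h6 ⟨j, hj, ?_⟩
    have h7 : (co n r d j : ℝ) ≤ -((e : ℝ) * (n : ℝ) ^ j) := by
      have := hle j
      linarith
    exact_mod_cast h7

end Pool.Agent.Results.MP_9e2f2c_ag.LeadingOrder
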