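import Pool.Agent.TH176.RK.Fam2

/-!
# The Fröberg–Iarrobino formula for at least `3 ^ (n - 1)` powers of linear forms

Let `n ≥ 3`, `r ≥ 3 ^ (n - 1)`, `d ≥ 1` and `ρ = r ^ (1 / (n - 1))`. For the ideal generated by the
`d`-th powers of `r` generic linear forms in `n` variables over a field of characteristic zero the
Hilbert function of the quotient is the coefficient of the truncated series
`(1 - t ^ d) ^ r / (1 - t) ^ n` in all degrees, with the exception of at most
`n - 1 + ⌊(2 n - 5) / (ρ - 1)⌋` consecutive ones.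

The quotient in degree `k` is dual to the space of the forms of degree `k` with multiplicity
`k + 1 - d` at `r` general points of the projective space of dimension `N = n - 1`. This space is
zero if `k < ρ (k + 1 - d)`, and the conditions are independent if `ρ (k + N - d) + N - 2 < k`;
both facts are proved by an induction on `N` along tubes around nodal curves.
-/

set_option autoImplicit false

namespace Pool.Agent.Results.MP_9e2f2c_ag.ManyPowers

open MvPolynomial

/-- The Hilbert function of the quotient of `K[x_1, …, x_n]` by the ideal generated by the `d`-th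
powers of the linear forms `∑ i, a (s, i) * x_i`, in degree `k`. -/
noncomputable def hilb {K : Type} [Field K] {n r : ℕ} (d : ℕ) (a : Fin r × Fin n → K) (k : ℕ) :
    ℤ :=
  (Module.finrank K (MvPolynomial.homogeneousSubmodule (Fin n) K k) : ℤ) -
    (Module.finrank K
      ↥(Submodule.restrictScalars K
          (Ideal.span (Set.range fun s : Fin r =>
            (∑ i : Fin n, C (a (s, i)) * X i : MvPolynomial (Fin n) K) ^ d)) ⊓
        MvPolynomial.homogeneousSubmodule (Fin n) K k) : ℤ)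

/-- The coefficient of `t ^ k` in `(1 - t) ^ (-n) * (1 - t ^ d) ^ r`. -/
noncomputable def co (n r d k : ℕ) : ℤ :=
  PowerSeries.coeff k
    ((PowerSeries.mk fun _ => (1 : ℤ)) ^ n * (1 - PowerSeries.X ^ d) ^ r)

open Classical in
/-- The coefficient of `t ^ k` in the series `F_{n,r,d}`, that is, of `(1 - t ^ d) ^ r / (1 - t) ^ n`
truncated at its first coefficient that is not positive. -/
noncomputable def fro (n r d k : ℕ) : ℤ :=
  if ∀ j ≤ k, 0 < co n r d j then co n r d k else 0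

/-- The formula of Fröberg and Iarrobino for `r ≥ 3 ^ (n - 1)`. -/
theorem result (n : ℕ) (hn : 3 ≤ n) (K : Type) [Field K] [CharZero K] (r d : ℕ)
    (hr : 3 ^ (n - 1) ≤ r) (hd : 1 ≤ d) :
    ∃ k₀ : ℕ, ∃ P : MvPolynomial (Fin r × Fin n) K, P ≠ 0 ∧
      ∀ a : Fin r × Fin n → K, MvPolynomial.eval a P ≠ 0 →
        ∀ k : ℕ,
          ((r : ℝ) ^ ((1 : ℝ) / (n - 1)) * (k + n - 1 - d) + (n - 3) < k ∨
            (k : ℝ) < (r : ℝ) ^ ((1 : ℝ) / (n - 1)) * (k + 1 - d) ∨
            k < k₀ ∨ (k₀ : ℝ) + (n - 2) +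
              (2 * n - 5) / ((r : ℝ) ^ ((1 : ℝ) / (n - 1)) - 1) < k) →
          hilb d a k = fro n r d k := by
  obtain ⟨j, rfl⟩ : ∃ j, n = j + 3 := ⟨n - 3, by omega⟩
  have e3 : j + 3 - 1 = j + 2 := rfl
  rw [e3] at hr
  have hr0 : 0 < r := lt_of_lt_of_le (by positivity) hr
  obtain ⟨h0, hu, -⟩ := Pool.Agent.H932R5.pos_root (E := j + 1) hr0
  have c1 : (((j + 1 : ℕ) : ℝ) + 1) = ((j + 3 : ℕ) : ℝ) - 1 := by push_cast; ring
  rw [c1] at h0 hu
  obtain ⟨u, hu1⟩ : ∃ u : ℝ, (r : ℝ) ^ ((1 : ℝ) / (((j + 3 : ℕ) : ℝ) - 1)) = u := ⟨_, rfl⟩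
  rw [hu1] at h0 hu
  have hu3 : 3 ≤ u := by
    by_contra hcon
    push Not at hcon
    have h1 : u ^ (j + 1 + 1) < 3 ^ (j + 1 + 1) := pow_lt_pow_left₀ hcon h0.le (by omega)
    rw [hu] at h1
    have h2 : r < 3 ^ (j + 2) := by exact_mod_cast h1
    exact absurd hr (not_le.2 h2)
  obtain ⟨k₀, P, hP, hP2⟩ := Pool.Agent.TH176.RK.pow_lin j K r d u hu3 hu hd
  refine ⟨k₀, P, hP, fun a ha k hk => ?_⟩
  rw [hu1] at hk
  have d1 : (k : ℝ) + ((j + 3 : ℕ) : ℝ) - 1 - d = k + 1 - d + j + 1 := by push_cast; ring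
  have d2 : ((j + 3 : ℕ) : ℝ) - 3 = j := by push_cast; ring
  have d3 : ((j + 3 : ℕ) : ℝ) - 2 = j + 1 := by push_cast; ring
  have d4 : 2 * ((j + 3 : ℕ) : ℝ) - 5 = 2 * j + 1 := by push_cast; ring
  rw [d1, d2, d3, d4] at hk
  have h5 : ∀ m, Pool.Agent.TH206.Fro.co (j + 3) (fun _ : Fin r => d) m = co (j + 3) r d m := by
    intro m
    unfold Pool.Agent.TH206.Fro.co co
    rw [Finset.prod_const, Finset.card_univ, Fintype.card_fin]
  have h6 : Pool.Agent.TH206.Fro.fro (j + 3) (fun _ : Fin r => d) k = fro (j + 3) r d k := by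
    unfold Pool.Agent.TH206.Fro.fro fro
    simp only [h5]
  rw [← h6]
  exact hP2 a ha k hk

end Pool.Agent.Results.MP_9e2f2c_ag.ManyPowers
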