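import Mathlib
import Pool.Agent.TH130.PE.Forms
import Pool.Agent.TH130.FP.FinalD

/-!
# The Fröberg–Iarrobino formula in bounded degrees for a positive density of powers

Fix `D`. There is a `c > 0` such that for **all** `n ≥ 1`, all `d ≥ 1` and all `r ≤ c * n ^ d` the
Hilbert function of the quotient of the polynomial ring in `n` variables over `ℂ` by the `d`-th
powers of `r` generic linear forms is, in every degree `k ≤ D`, exactly the coefficient of `t ^ k` in
`(1 - t ^ d) ^ r / (1 - t) ^ n`; all these coefficients are positive, so that this is also the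
coefficient of the truncated series of Fröberg and Iarrobino.

The linear forms are specialised to characteristic vectors of random transversals inside the blocks
`{(a, f(a))}` of a Reed–Solomon type configuration, whose flats are again configurations of the same
type of bounded size.
-/

set_option autoImplicit false

namespace Pool.Agent.Results.MP_9e2f2c_ag.PositiveDensity

open MvPolynomial

/-- The Hilbert function of the quotient of `ℂ[x_1, …, x_n]` by the ideal generated by the `d`-th
powers of the linear forms `∑ i, a (s, i) * x_i`, in degree `k`. -/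
noncomputable def hilb {n r : ℕ} (d : ℕ) (a : Fin r × Fin n → ℂ) (k : ℕ) : ℤ :=
  (Module.finrank ℂ (MvPolynomial.homogeneousSubmodule (Fin n) ℂ k) : ℤ) -
    (Module.finrank ℂ
      ↥(Submodule.restrictScalars ℂ
          (Ideal.span (Set.range fun s : Fin r =>
            (∑ i : Fin n, C (a (s, i)) * X i : MvPolynomial (Fin n) ℂ) ^ d)) ⊓
        MvPolynomial.homogeneousSubmodule (Fin n) ℂ k) : ℤ)

/-- The coefficient of `t ^ k` in `(1 - t) ^ (-n) * (1 - t ^ d) ^ r`. -/
noncomputable def co (n r d k : ℕ) : ℤ :=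
  PowerSeries.coeff k
    ((PowerSeries.mk fun _ => (1 : ℤ)) ^ n * (1 - PowerSeries.X ^ d) ^ r)

open Classical in
/-- The coefficient of `t ^ k` in the series `F_{n,r,d}`, that is, of `(1 - t ^ d) ^ r / (1 - t) ^ n`
truncated at its first coefficient that is not positive. -/
noncomputable def fro (n r d k : ℕ) : ℤ :=
  if ∀ j ≤ k, 0 < co n r d j then co n r d k else 0

/-- The formula of Fröberg and Iarrobino in degrees `≤ D`, for `r ≤ c * n ^ d`. -/
theorem result (D : ℕ) :
    ∃ c : ℝ, 0 < c ∧ ∀ n r d : ℕ, 1 ≤ n → 1 ≤ d → (r : ℝ) ≤ c * (n : ℝ) ^ d →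
      ∃ P : MvPolynomial (Fin r × Fin n) ℂ, P ≠ 0 ∧
        ∀ a : Fin r × Fin n → ℂ, MvPolynomial.eval a P ≠ 0 →
          ∀ k : ℕ, k ≤ D →
            0 < co n r d k ∧ hilb d a k = co n r d k ∧ hilb d a k = fro n r d k := by
  classical
  obtain ⟨c, hc, H⟩ := TH130PE.main_eq ℂ D
  refine ⟨c, hc, ?_⟩
  intro n r d hn hd hr
  obtain ⟨hs, P0, hP0⟩ := H n r d hn hd hr
  have hd' : ∀ _i : Fin r, 0 < d := fun _ => hd
  obtain ⟨Φ, hΦ0, hΦ⟩ := TH130PE.pow_exact (e := fun _ => d) hd' hP0
  have hE : ∀ j, H350MG.E (H350MG.gj (Fin n)) (List.ofFn fun _ : Fin r => d) j = co n r d j := by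
    intro j
    rw [H350MG.E_ofFn_series n hn]
    unfold co
    rw [Finset.prod_const, Finset.card_univ, Fintype.card_fin]
  have hpos : ∀ j ≤ D, 0 < co n r d j := by
    intro j hj
    rw [← hE]
    exact TH130PE.E_pos_of (e := fun _ => d) hd' hs hP0 j hj
  refine ⟨Φ, hΦ0, ?_⟩
  intro a haΦ k hk
  have h1 := hΦ a haΦ k hk
  have h3 : (fun s : Fin r => (∑ i : Fin n, MvPolynomial.C (a (s, i)) * X i :
      MvPolynomial (Fin n) ℂ) ^ d) = Pool.Agent.TH130.FP.pf (fun _ : Fin r => d) a := by
    funext s
    unfold Pool.Agent.TH130.FP.pf H350MG.lin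
    simp only [smul_eq_C_mul]
  have h4 : H350MG.fList (fun _ : Fin r => d) (Pool.Agent.TH130.FP.pf (fun _ : Fin r => d) a) =
      H350MG.powList (fun _ : Fin r => d) a := rfl
  have hh : H350MG.qd (H350MG.powList (fun _ : Fin r => d) a) k = hilb d a k := by
    unfold hilb H350MG.qd
    have h2 := H350MG.span_inf_eq (Pool.Agent.TH130.FP.pf_hom (fun _ : Fin r => d) a) k
    rw [h3, h2, h4]
    congr 1
    exact (H350MG.finrank_Rj' k).symm
  rw [hE, hh] at h1
  refine ⟨hpos k hk, h1, ?_⟩
  unfold fro
  rw [if_pos fun j hj => hpos j (hj.trans hk)]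
  exact h1

end Pool.Agent.Results.MP_9e2f2c_ag.PositiveDensity
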